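import Pool.Agent.R472.GridLReg

set_option autoImplicit false

/-! # Quadratic forms over group rings of rings with involution and the triangular lattice

Let `R` be any ring with involution, generated as a ring by `T`, and `G` a group generated by `S`. Every
`ε`-quadratic form over `RG` becomes, after adding hyperbolic planes, isometric to a form whose basis
vectors are points of the triangular lattice, with entries zero except between neighbouring points,
nonzero entries `± s` or `± t`, and at most three neighbours for each basis vector. If `G` is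
torsion-free, every nonsingular form whose symmetrization has at most two nonzero entries in each row,
all of them monomials `r g` with `r` not a zero divisor (at any positions, the diagonal included),
becomes a form over `R` when the basis vectors are multiplied by suitable elements of `G`.

Outline of (1). A program of elementary matrices between neighbouring wires computes
`(1, 0; ψ, 1)`; let `v` run over its variables, `(1 - N) F = C` be its equations, and `D_x F = 1`,
`D_y F = ψ` its outputs. On `RGⁿ ⊕ RG^V ⊕ RG^V` the form with `φ(λ, x) = - C`, `φ(λ, z) = 1 - N`,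
`φ(z, z) = K = D_x* D_y` is the image of `ψ ⊕ (hyperbolic planes)` under the isometry
`E = (1, ε F* K*, -F*; 0, 1 - N, 0; 0, K, 1)`, since `F* K F = ψ`.

Outline of (2). The graph of `λ = φ + εφ*` is a disjoint union of paths and cycles (and loops, where
the group element is `1`). Let `c` be the product of the group elements around a cycle of length `m`.
The column of `λ⁻¹` at a vertex of the cycle is a solution `x` of `λ x = e`; reading `λ x = e` along the
lift of the cycle to a line gives a finite subset `A` of `G` (a translate of the support of a coordinate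
of `x`) such that `A` and `C A` agree outside `C`, with `C = c` for even and `C = c²` for odd `m`. If
`c ≠ 1`, then `C` has infinite order, counting gives `A = C A`, so `A` is empty, and then `λ x = e` fails
at the vertex. So `c = 1`, and the group elements of the entries of `λ` are a coboundary. The part of
the quadratic form away from `1 ∈ G` is then of the form `χ - εχ*`, since no `g ≠ 1` is equal to
`g⁻¹`. -/

namespace Pool.Agent.Results.MP_8a3537_gt.LatticeForms

open Matrix

section defs

variable {R : Type} [Ring R] [StarRing R] {G : Type} [Group G]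

/-- the involution `∑ r_g g ↦ ∑ r̄_g g⁻¹` of the group ring -/
noncomputable def bar (x : MonoidAlgebra R G) : MonoidAlgebra R G :=
  ∑ g ∈ x.coeff.support, MonoidAlgebra.single g⁻¹ (star (x.coeff g))

/-- the adjoint (conjugate transpose) of a matrix over `RG` -/
noncomputable def adjoint {κ μ : Type} (A : Matrix κ μ (MonoidAlgebra R G)) :
    Matrix μ κ (MonoidAlgebra R G) :=
  Matrix.of fun j i => bar (A i j)

/-- the `ε`-symmetric form `λ = ψ + εψ*` of the `ε`-quadratic form `ψ` -/
noncomputable def symmetrization {κ : Type} (ε : ℤ) (ψ : Matrix κ κ (MonoidAlgebra R G)) :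
    Matrix κ κ (MonoidAlgebra R G) := ψ + ε • adjoint ψ

/-- neighbouring points of the triangular lattice: the difference is `± (1, 0)`, `± (0, 1)` or
`± (1, 1)` -/
def Neighbours (a b : ℤ × ℤ) : Prop :=
  b - a = (1, 0) ∨ a - b = (1, 0) ∨ b - a = (0, 1) ∨ a - b = (0, 1) ∨ b - a = (1, 1) ∨
    a - b = (1, 1)

/-- the elements `± s` (`s = 1`, `s ∈ S` or `s⁻¹ ∈ S`) and `± t` (`t ∈ T`) of the group ring -/
def Generator (S : Set G) (T : Set R) (x : MonoidAlgebra R G) : Prop :=
  (∃ s : G, (s = 1 ∨ s ∈ S ∨ s⁻¹ ∈ S) ∧
      (x = MonoidAlgebra.single s 1 ∨ x = MonoidAlgebra.single s (-1))) ∨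
    ∃ t ∈ T, x = MonoidAlgebra.single 1 t ∨ x = MonoidAlgebra.single 1 (-t)

/-- The basis vectors of the form `φ` are at different points of the triangular lattice, entries are
zero except between neighbouring points, nonzero entries are `± s` or `± t`, at most one of `φ i j` and
`φ j i` is not zero (so the diagonal is zero), and each basis vector is paired nontrivially with at
most three others. -/
def OnLattice (S : Set G) (T : Set R) {κ : Type} (φ : Matrix κ κ (MonoidAlgebra R G)) : Prop :=
  ∃ pos : κ → ℤ × ℤ, Function.Injective pos ∧ (∀ i j, φ i j ≠ 0 → Neighbours (pos i) (pos j)) ∧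
    (∀ i j, φ i j ≠ 0 → φ j i = 0) ∧ (∀ i j, φ i j = 0 ∨ Generator S T (φ i j)) ∧
    ∀ i, {j | φ i j ≠ 0 ∨ φ j i ≠ 0}.ncard ≤ 3

/-- The symmetrization of `φ` has at most two nonzero entries in each row (the diagonal is counted),
and all its nonzero entries are monomials `r g`, with `g ∈ G` and `r ∈ R` not a zero divisor. -/
def AtMostTwo {κ : Type} (ε : ℤ) (φ : Matrix κ κ (MonoidAlgebra R G)) : Prop :=
  (∀ i, {j | symmetrization ε φ i j ≠ 0}.ncard ≤ 2) ∧
    ∀ i j, symmetrization ε φ i j = 0 ∨
      ∃ (g : G) (r : R), IsRegular r ∧ symmetrization ε φ i j = MonoidAlgebra.single g r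

/-- isometry of `ε`-quadratic forms (matrices modulo the matrices `χ - εχ*`) -/
def Isometric {κ : Type} [Fintype κ] [DecidableEq κ] (ε : ℤ)
    (ψ ψ' : Matrix κ κ (MonoidAlgebra R G)) : Prop :=
  ∃ E χ : Matrix κ κ (MonoidAlgebra R G),
    IsUnit E ∧ E * ψ * adjoint E = ψ' + (χ - ε • adjoint χ)

/-- the sum of hyperbolic planes, one for each element of `ν` -/
noncomputable def hyperbolic (ν : Type) [DecidableEq ν] :
    Matrix (ν ⊕ ν) (ν ⊕ ν) (MonoidAlgebra R G) := fromBlocks 0 1 0 0

end defs

open TH57.Thr TH6.PF Pool.Agent.R472.Grid Pool.Agent.R472.GridL in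
/-- Let `R` be any ring with involution, generated as a ring by `T`, let `G` be any group, generated by
`S`, and `ε = ±1`.

(1) Every `ε`-quadratic form over `RG` (nonsingular or not) becomes after adding hyperbolic planes
isometric to a form on the triangular lattice with entries `0`, `± s` and `± t`, zero diagonal and at
most three partners for each basis vector; this form is nonsingular if the given one is.
(2) Three cannot be replaced by two. Let `G` be torsion-free and `φ` a nonsingular form whose
symmetrization has at most two nonzero entries in each row, all of the form `r g`, `r ∈ R` not a zero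
divisor, `g ∈ G`. Then, for suitable `gᵢ ∈ G`, the form `φ` in the basis vectors multiplied by the `gᵢ`
is the form of a matrix `ψ` over `R` (up to `χ - εχ*`), and `ψ` is nonsingular over `R`. -/
theorem result (R : Type) [Ring R] [StarRing R] (T : Set R) (hT : Subring.closure T = ⊤)
    (G : Type) [Group G] (S : Set G) (hS : Subgroup.closure S = ⊤) (ε : ℤ)
    (hε : ε = 1 ∨ ε = -1) :
    (∀ (n : ℕ) (ψ : Matrix (Fin n) (Fin n) (MonoidAlgebra R G)),
      ∃ (ν : Type) (_ : Fintype ν) (_ : DecidableEq ν)
        (φ : Matrix (Fin n ⊕ (ν ⊕ ν)) (Fin n ⊕ (ν ⊕ ν)) (MonoidAlgebra R G)),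
        OnLattice S T φ ∧ Isometric ε (fromBlocks ψ 0 0 (hyperbolic ν)) φ ∧
        (IsUnit (symmetrization ε ψ) → IsUnit (symmetrization ε φ))) ∧
    ((∀ g : G, ∀ k : ℕ, 0 < k → g ^ k = 1 → g = 1) →
      ∀ (κ : Type) [Fintype κ] [DecidableEq κ] (φ : Matrix κ κ (MonoidAlgebra R G)),
        IsUnit (symmetrization ε φ) → AtMostTwo ε φ →
        ∃ (g : κ → G) (ψ : Matrix κ κ R) (χ : Matrix κ κ (MonoidAlgebra R G)),
          IsUnit (ψ + ε • ψᴴ) ∧
          diagonal (fun i => (MonoidAlgebra.single (g i) 1 : MonoidAlgebra R G)) * φ *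
              adjoint (diagonal fun i => (MonoidAlgebra.single (g i) 1 : MonoidAlgebra R G))
            = ψ.map (fun r => MonoidAlgebra.single 1 r) + (χ - ε • adjoint χ)) := by
  classical
  have hεε : ε * ε = 1 := by rcases hε with rfl | rfl <;> norm_num
  have hbar : ∀ x : MonoidAlgebra R G, bar x = sbar 1 x := by
    intro x
    unfold bar sbar
    refine Finset.sum_congr rfl fun g _ => ?_
    simp
  have hadj : ∀ {κ μ : Type} (A : Matrix κ μ (MonoidAlgebra R G)), adjoint A = sadj 1 A := by
    intro κ μ A
    ext1 i j
    exact hbar _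
  have hlam : ∀ {κ : Type} [Fintype κ] [DecidableEq κ] (A : Matrix κ κ (MonoidAlgebra R G)),
      symmetrization ε A = lamL 1 ε A := by
    intro κ _ _ A
    unfold symmetrization lamL
    rw [hadj]
  refine ⟨fun n ψ => ?_, fun htf κ _ _ φ hu h => ?_⟩
  · obtain ⟨ν, i1, i2, φ, ⟨pos, a1, a2, a3, a4, a5⟩, hφ⟩ := tri_form 1 (one_gensR S T)
      (neg_gensR S T) (genBy_top _ (closure_gensR S hS T hT)) ε hεε ψ
    refine ⟨ν, i1, i2, φ, ⟨pos, a1, fun i j h => ?_, a3, a4, a5⟩, ?_, fun hu => ?_⟩
    · have h2 := a2 i j h
      unfold TriAdj GridAdj at h2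
      unfold Neighbours
      simp only [Prod.ext_iff, Prod.fst_sub, Prod.snd_sub]
      omega
    · obtain ⟨E, χ, b2⟩ := hφ
      exact ⟨E.val, χ, E.isUnit, by rw [hadj, hadj]; exact b2⟩
    · rw [hlam]
      refine iso_unitL 1 hεε hφ (unit_stabL 1 hεε ?_)
      rw [← hlam]
      exact hu
  · unfold AtMostTwo at h
    rw [hlam] at hu h
    obtain ⟨g, ψ, χ, h1, h2⟩ := reg_ext 1 htf ε hεε φ hu (fun i j h3 => by
      obtain ⟨g, r, h4, h5⟩ := (h.2 i j).resolve_left h3
      exact ⟨g, r, fun c hc => h4.left.eq_iff.1 (by simpa using hc), h5⟩) h.1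
    exact ⟨g, ψ, χ, h1, by rw [hadj, hadj]; exact h2⟩

end Pool.Agent.Results.MP_8a3537_gt.LatticeForms
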