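import Pool.Agent.R942.FJ.LocEdgeB

/-!
# Splittings whose edge groups are locally detected

`C` is any class of groups with the closure properties `ClosedE C`, all of which are known for the
class of the groups that satisfy the L-theoretic (and K-theoretic) Farrell–Jones conjecture with
coefficients and finite wreath products. The torsion-free groups in this class satisfy Q1. It is not
known whether the class is closed under amalgamated products and HNN extensions.

(1) Let `G` be the amalgamated product of `A` and `B` over `K`, with `A` and `B` in `C`. Suppose that for
every finite subset `E` of `K` there are a group `P` in `C` and homomorphisms `A → P ← B` that agree on `E`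
and are injective on the subgroup generated by `E` (`LocAm`). Then `G` is in `C`. The group `P` and the
homomorphisms depend on `E`; they need not agree on `K` and so need not come from homomorphisms of `G`.

(2) The same holds if the finitely generated subgroups of `K` have bounded length (`LocLen`: each chain
of subgroups of such a subgroup, each of infinite index in the preceding one, has bounded length, for
instance locally polycyclic `K`) and each element of `⟨E⟩` other than `1` is detected by such a pair of
homomorphisms to a torsion-free group `P` in `C` (`ResAm`). For instance this holds if `G` is residually
torsion-free nilpotent, or residually (torsion-free and in `C`).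

(3), (4) HNN extensions, with homomorphisms `f : M → P` and `s ∈ P` which conjugates `f a` to `f (φ a)`.

Outline of the proof. `G` is the directed colimit of the amalgamated products `G_E` of `A` and `B` over
the subgroups `⟨E⟩`. The homomorphisms give `G_E → P`, injective on the edge group, so that `G_E` is in
`C` by the theorem `MP_8f66f0_al.EdgeInjectiveSplittings`. In (2) a decreasing sequence of kernels with
torsion-free quotients stops after finitely many steps, and finite products of the groups `P` do it.
-/

set_option autoImplicit false

namespace Pool.Agent.Results.MP_8a3537_gt.LocallyDetectedEdges

open Pool.Agent.Y110.FJ Pool.Agent.R942.FJ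

theorem result (C : ∀ (G : Type) [Group G], Prop) (hC : ClosedE C) :
    (∀ (G : Type) [Group G] (A B K : Subgroup G), Amg A B K → C A → C B →
      (LocAm A B K C ∨ (LocLen K ∧ ResAm A B K C)) → C G) ∧
    (∀ (M : Type) [Group M] (A B : Subgroup M) (φ : A ≃* B), C M →
      (LocHnn A B φ C ∨ (LocLen A ∧ ResHnn A B φ C)) → C (HNNExtension M A B φ)) := by
  refine ⟨fun G _ A B K hAmg hA hB h => ?_, fun M _ A B φ hM h => ?_⟩
  · rcases h with h | ⟨h1, h2⟩
    · exact amg_loc A B K hC hAmg h hA hB
    · exact amg_loc A B K hC hAmg (locAm_of_res A B K hC.base hAmg.le_left h1 h2) hA hB
  · rcases h with h | ⟨h1, h2⟩
    · exact hnn_loc A B φ hC h hM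
    · exact hnn_loc A B φ hC (locHnn_of_res A B φ hC.base h1 h2) hM

end Pool.Agent.Results.MP_8a3537_gt.LocallyDetectedEdges
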