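import Pool.Agent.R703.FJ.Main

/-!
# Automorphism groups of finitely generated modules over commutative rings

`C` is any class of groups with the closure properties `ClosedE C` which contains all metabelian groups;
all of this is known for the class of the groups that satisfy the Full Farrell–Jones Conjecture (with
coefficients in additive categories with involution, and with finite wreath products), and for a torsion
free group in this class the L-theoretic assembly map is an isomorphism for each ring with involution.

Let `R` be any commutative ring and `M` a finitely generated `R`-module such that the groups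
`GL_d(Frac(R/P))` are in `C` for all `d` and for each prime `P` of `R` which is minimal among the primes
containing the annihilator of some element of `M` (if `R` is Noetherian these are the associated primes
of `M`).

(1) The group of automorphisms of `M` is in `C`, and so is each group with a faithful representation on
`M`. Part (2) is the case of `GL_n(R)`, part (3) the case of the group of units of an algebra (which need
not be commutative) which is finitely generated as a module.

(4) Let `N` be a normal subgroup of `G` with `G ⧸ N` in `C` and with a faithful representation on `M`. If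
the conjugation by each `g` in `G` is induced by some semilinear automorphism of `M` for some
automorphism `σ` of `R` all of whose orbits are finite, then `G` is in `C`. The semilinear automorphisms
can depend on `g` in any way. (5) It is enough that this holds locally.

Outline of the proof. A finitely generated group `H` of automorphisms of `M` preserves a finitely
generated module `X` over a finitely generated subring `A` of `R`. Let `q` be maximal among the annihilators
of the nonzero elements of `X`, and let `X[q]` be the submodule of the elements killed by `q`. The ideal `q`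
is prime, `X[q]` is a torsion free `A ⧸ q`-module, which gives a map to some `GL_d(Frac(A ⧸ q))`, and each
associated prime of `X ⧸ X[q]` is an associated prime of `X`. The automorphisms of `X` which are trivial on
`X[q]` and on `X ⧸ X[q]` form an abelian group, so by Noetherian induction `H` is in `C`. Each associated
prime of `X` is `A ∩ P` for some weakly associated prime `P` of `M`. For the semilinear case `A` is a
finitely generated subring which is invariant under `σ`, and then `σ` has finite order on `A`; so `H` and
the semilinear map generate a group of additive automorphisms of `X` which is in `C`, and the realization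
criterion `MP_490288_al.RealizationCriterion` applies.
-/

set_option autoImplicit false

namespace Pool.Agent.Results.MP_8a3537_gt.ModuleAutomorphisms

open Pool.Agent.Y110.FJ

/-- All metabelian groups are in the class. -/
def Metabelian (C : ∀ (G : Type) [Group G], Prop) : Prop :=
  ∀ (S : Type) [Group S], (∀ a ∈ commutator S, ∀ b ∈ commutator S, a * b = b * a) → C S

/-- `P` is minimal among the prime ideals which contain the annihilator of some element of `M`. -/
def WeaklyAssociated {R : Type} [CommRing R] (M : Type) [AddCommGroup M] [Module R M]
    (P : Ideal R) : Prop :=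
  ∃ x : M, P ∈ (Ideal.torsionOf R M x).minimalPrimes

/-- The groups `GL_d(Frac(R/P))` are in the class, for all weakly associated primes `P` of `M` and all
`d`. -/
def ResidueLinear (C : ∀ (G : Type) [Group G], Prop) (R : Type) [CommRing R] (M : Type)
    [AddCommGroup M] [Module R M] : Prop :=
  ∀ (P : Ideal R) (_ : P.IsPrime), WeaklyAssociated M P →
    ∀ d : ℕ, C (GL (Fin d) (FractionRing (R ⧸ P)))

/-- Every element of `R` has a finite orbit under `σ`. -/
def FiniteOrbits {R : Type} [CommRing R] (σ : R ≃+* R) : Prop :=
  ∀ x : R, ∃ m : ℕ, 0 < m ∧ (σ ^ m) x = x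

/-- `T` is a `σ`-semilinear automorphism of `M`. -/
def Semilinear {R : Type} [CommRing R] {M : Type} [AddCommGroup M] [Module R M] (σ : R ≃+* R)
    (T : M ≃+ M) : Prop :=
  ∀ (r : R) (m : M), T (r • m) = σ r • T m

/-- `b = T a T⁻¹`. -/
def Conj {R : Type} [CommRing R] {M : Type} [AddCommGroup M] [Module R M] (T : M ≃+ M)
    (a b : Module.End R M) : Prop :=
  ∀ m : M, b (T m) = T (a m)

/-- The group `⟨E ∪ g E g⁻¹⟩` has a faithful representation on some finitely generated module `M` over some
commutative ring `R` with the property `ResidueLinear`, such that the conjugation by `g` is `a ↦ T a T⁻¹` on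
`E`, where `T` is `σ`-semilinear for an automorphism `σ` of `R` with finite orbits. -/
def LocalRepresentation (C : ∀ (G : Type) [Group G], Prop) {G : Type} [Group G] (g : G)
    (E : Set G) : Prop :=
  ∃ (R : Type) (_ : CommRing R) (M : Type) (_ : AddCommGroup M) (_ : Module R M)
    (ρ : ↥(Subgroup.closure (E ∪ (fun x => g * x * g⁻¹) '' E)) →* Module.End R M)
    (σ : R ≃+* R) (T : M ≃+ M), ResidueLinear C R M ∧ Module.Finite R M ∧ Function.Injective ρ ∧
    FiniteOrbits σ ∧ Semilinear σ T ∧
    ∀ x y : ↥(Subgroup.closure (E ∪ (fun x => g * x * g⁻¹) '' E)), (x : G) ∈ E →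
      (y : G) = g * x * g⁻¹ → Conj T (ρ x) (ρ y)

theorem conv {C : ∀ (G : Type) [Group G], Prop} {R : Type} [CommRing R] {M : Type}
    [AddCommGroup M] [Module R M] (h : ResidueLinear C R M) : Pool.Agent.R703.FJ.ResGL C R M :=
  fun P hP x hx d => h P hP ⟨x, hx⟩ d

theorem result (C : ∀ (G : Type) [Group G], Prop) (hC : ClosedE C) (hmet : Metabelian C) :
    (∀ (R : Type) [CommRing R] (M : Type) [AddCommGroup M] [Module R M] [Module.Finite R M],
      ResidueLinear C R M → C (M ≃ₗ[R] M) ∧
        ∀ (G : Type) [Group G] (ρ : G →* Module.End R M), Function.Injective ρ → C G) ∧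
    (∀ (R : Type) [CommRing R], ResidueLinear C R R → ∀ n : ℕ, C (GL (Fin n) R)) ∧
    (∀ (R : Type) [CommRing R] (B : Type) [Ring B] [Algebra R B] [Module.Finite R B],
      ResidueLinear C R B → C Bˣ) ∧
    (∀ (G : Type) [Group G] (N : Subgroup G) [N.Normal], C (G ⧸ N) →
      ∀ (R : Type) [CommRing R] (M : Type) [AddCommGroup M] [Module R M] [Module.Finite R M]
        (ι : N →* Module.End R M), ResidueLinear C R M → Function.Injective ι →
        (∀ g : G, ∃ (σ : R ≃+* R) (T : M ≃+ M), FiniteOrbits σ ∧ Semilinear σ T ∧
          ∀ x y : N, (y : G) = g * x * g⁻¹ → Conj T (ι x) (ι y)) → C G) ∧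
    (∀ (G : Type) [Group G] (N : Subgroup G) [N.Normal], C (G ⧸ N) →
      (∀ (g : G) (E : Set G), E.Finite → E ⊆ N → LocalRepresentation C g E) → C G) := by
  refine ⟨?_, ?_, ?_, ?_, ?_⟩
  · intro R _ M _ _ _ hR
    exact ⟨Pool.Agent.R703.FJ.lin_mem hC hmet R M (conv hR),
      fun G _ ρ hρ => Pool.Agent.R703.FJ.aut_mem hC hmet R M (conv hR) G ρ hρ⟩
  · intro R _ hR n
    exact Pool.Agent.R703.FJ.gl_mem hC hmet R (conv hR) n
  · intro R _ B _ _ _ hR
    exact Pool.Agent.R703.FJ.units_mem hC hmet R B (conv hR)
  · intro G _ N _ hQ R _ M _ _ _ ι hR hι h
    exact Pool.Agent.R703.FJ.ext_global hC hmet N hQ R M (conv hR) ι hι h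
  · intro G _ N _ hQ h
    refine Pool.Agent.R703.FJ.ext_local hC hmet N hQ fun g E hE hEN => ?_
    obtain ⟨R, i1, M, i2, i3, ρ, σ, T, hR, h'⟩ := h g E hE hEN
    exact ⟨R, i1, M, i2, i3, ρ, σ, T, conv hR, h'⟩

end Pool.Agent.Results.MP_8a3537_gt.ModuleAutomorphisms
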