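import Pool.Agent.R719.WF.Form

set_option autoImplicit false

/-! Nonsingular quadratic forms over integral group rings which are diagonally dominant at symmetric
positions with respect to positive real weights are simply isometric to forms over `ℤ`. -/

namespace Pool.Agent.Results.MP_8a3537_gt.WeightedDominantForms

open Matrix

section defs

variable {Γ : Type} [Group Γ]

/-- the adjoint (conjugate transpose) of a matrix over `ℤΓ`, for the involution `g ↦ g⁻¹` -/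
noncomputable def adjoint {κ μ : Type} (A : Matrix κ μ (MonoidAlgebra ℤ Γ)) :
    Matrix μ κ (MonoidAlgebra ℤ Γ) :=
  Matrix.of fun j i => MonoidAlgebra.mapDomain (fun g => g⁻¹) (A i j)

/-- the sum of the absolute values of the coefficients -/
def norm1 (x : MonoidAlgebra ℤ Γ) : ℕ := ∑ g ∈ x.coeff.support, (x.coeff g).natAbs

/-- the `ε`-symmetric form `λ = ψ + εψ*` of the `ε`-quadratic form `ψ` -/
noncomputable def symmetrization {κ : Type} (ε : ℤ) (ψ : Matrix κ κ (MonoidAlgebra ℤ Γ)) :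
    Matrix κ κ (MonoidAlgebra ℤ Γ) := ψ + ε • adjoint ψ

/-- Weighted dominance at symmetric positions: there are an involution `σ` of the index set, group
elements `γ i` with `γ (σ i) = (γ i)⁻¹` and weights `p j > 0` such that, for `λ = ψ + εψ*` and all
`i`, the sum over all `j` and `g ∈ Γ`, with `(j, g) ≠ (σ i, γ i)`, of the absolute value of the
coefficient of `g` in `λ_{ij}` times `p j` is at most the absolute value of the coefficient of `γ i`
in `λ_{i, σ i}` times `p (σ i)`. -/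
def WeightedDominantForm {κ : Type} [Fintype κ] (ε : ℤ) (ψ : Matrix κ κ (MonoidAlgebra ℤ Γ)) :
    Prop :=
  ∃ (σ : κ → κ) (γ : κ → Γ) (p : κ → ℝ), (∀ i, σ (σ i) = i) ∧ (∀ i, γ (σ i) = (γ i)⁻¹) ∧
    (∀ j, 0 < p j) ∧
    ∀ i, (∑ j, (norm1 (symmetrization ε ψ i j) : ℝ) * p j)
        - |((symmetrization ε ψ i (σ i)).coeff (γ i) : ℝ)| * p (σ i)
      ≤ |((symmetrization ε ψ i (σ i)).coeff (γ i) : ℝ)| * p (σ i)

/-- the square matrix `x` over `ℤΓ` is zero in the Whitehead group: stabilised by an identity block,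
it is `± g` on one diagonal entry times a product of commutators of invertible matrices -/
def ZeroInWh {κ : Type} [Fintype κ] [DecidableEq κ]
    (x : Matrix κ κ (MonoidAlgebra ℤ Γ)) : Prop :=
  ∃ (m : ℕ) (g : Γ) (ε : ℤˣ)
    (C : (Matrix (κ ⊕ Fin (m + 1)) (κ ⊕ Fin (m + 1)) (MonoidAlgebra ℤ Γ))ˣ),
    C ∈ commutator (Matrix (κ ⊕ Fin (m + 1)) (κ ⊕ Fin (m + 1)) (MonoidAlgebra ℤ Γ))ˣ ∧
    Matrix.fromBlocks x 0 0 (1 : Matrix (Fin (m + 1)) (Fin (m + 1)) (MonoidAlgebra ℤ Γ)) =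
      Matrix.diagonal (fun i : κ ⊕ Fin (m + 1) =>
          if i = Sum.inr (0 : Fin (m + 1)) then
            (MonoidAlgebra.single g ((ε : ℤ)) : MonoidAlgebra ℤ Γ) else 1) *
        (↑C : Matrix (κ ⊕ Fin (m + 1)) (κ ⊕ Fin (m + 1)) (MonoidAlgebra ℤ Γ))

/-- simple isometry of `ε`-quadratic forms (matrices modulo the matrices `χ - εχ*`) -/
def SimplyIsometric {κ : Type} [Fintype κ] [DecidableEq κ] (ε : ℤ)
    (ψ ψ' : Matrix κ κ (MonoidAlgebra ℤ Γ)) : Prop :=
  ∃ (E : (Matrix κ κ (MonoidAlgebra ℤ Γ))ˣ) (χ : Matrix κ κ (MonoidAlgebra ℤ Γ)),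
    ZeroInWh E.val ∧ E.val * ψ * adjoint E.val = ψ' + (χ - ε • adjoint χ)

/-- the form over `ℤΓ` induced from a form over `ℤ` -/
noncomputable def induced (Γ : Type) [Group Γ] {κ : Type} (Q : Matrix κ κ ℤ) :
    Matrix κ κ (MonoidAlgebra ℤ Γ) := Q.map fun n => MonoidAlgebra.single 1 n

/-- the quadratic form of the lattice `E₈`, of signature eight -/
def E8 : Matrix (Fin 8) (Fin 8) ℤ :=
  !![1, 0, -1, 0, 0, 0, 0, 0;
     0, 1, 0, -1, 0, 0, 0, 0;
     0, 0, 1, -1, 0, 0, 0, 0;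
     0, 0, 0, 1, -1, 0, 0, 0;
     0, 0, 0, 0, 1, -1, 0, 0;
     0, 0, 0, 0, 0, 1, -1, 0;
     0, 0, 0, 0, 0, 0, 1, -1;
     0, 0, 0, 0, 0, 0, 0, 1]

end defs

section aux

open TH57.Thr TH6.LF TH6.CX Pool.Agent.Y75.Th Pool.Agent.Y35.KC.TTm Pool.Agent.R719.DD
  Pool.Agent.R719.LF Pool.Agent.R719.WF

variable {Γ : Type} [Group Γ] {κ : Type} [Fintype κ] [DecidableEq κ]

theorem simple_of_iso {ε : ℤ} {ψ ψ' : Matrix κ κ (MonoidAlgebra ℤ Γ)} (h : Iso ε ψ ψ') :
    SimplyIsometric ε ψ ψ' := by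
  obtain ⟨E, χ, h1, h2⟩ := h
  exact ⟨E, χ, TT_explicit E h1, h2⟩

omit [DecidableEq κ] in
/-- signs for the dominating coefficients -/
theorem wdom_of_dominant {ε : ℤ} {ψ : Matrix κ κ (MonoidAlgebra ℤ Γ)}
    (h : WeightedDominantForm ε ψ) : ∃ σ γ s p, WDomF ε ψ σ γ s p := by
  obtain ⟨σ, γ, p, h1, h2, hp, h3⟩ := h
  have hs : ∀ i, ∃ s : ℤ, s * s = 1 ∧ s * (lam ε ψ i (σ i)).coeff (γ i)
      = |(lam ε ψ i (σ i)).coeff (γ i)| := by
    intro i
    rcases abs_choice ((lam ε ψ i (σ i)).coeff (γ i)) with h1 | h1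
    · exact ⟨1, by norm_num, by rw [h1, one_mul]⟩
    · exact ⟨-1, by norm_num, by rw [h1]; ring⟩
  choose s hs1 hs2 using hs
  refine ⟨σ, γ, s, p, h1, h2, hs1, hp, fun i => ?_⟩
  rw [hs2]
  have h4 := h3 i
  have h5 : (∑ j, (l1 (lam ε ψ i j) : ℝ) * p j)
      - |((lam ε ψ i (σ i)).coeff (γ i) : ℝ)| * p (σ i)
      ≤ |((lam ε ψ i (σ i)).coeff (γ i) : ℝ)| * p (σ i) := h4
  push_cast
  linarith

/-- the Cartan matrix of `E₈` -/
def C8 : Matrix (Fin 8) (Fin 8) ℤ := E8 + E8.transpose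

/-- the coefficients of the highest root -/
def p8 : Fin 8 → ℤ := ![2, 3, 4, 6, 5, 4, 3, 2]

/-- the inverse of the Cartan matrix -/
def I8 : Matrix (Fin 8) (Fin 8) ℤ :=
  !![4, 5, 7, 10, 8, 6, 4, 2; 5, 8, 10, 15, 12, 9, 6, 3; 7, 10, 14, 20, 16, 12, 8, 4;
     10, 15, 20, 30, 24, 18, 12, 6; 8, 12, 16, 24, 20, 15, 10, 5; 6, 9, 12, 18, 15, 12, 8, 4;
     4, 6, 8, 12, 10, 8, 6, 3; 2, 3, 4, 6, 5, 4, 3, 2]

theorem sym8 : symmetrization 1 (induced Γ E8) = C8.map (Int.castRingHom (MonoidAlgebra ℤ Γ)) := by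
  ext1 i j
  change MonoidAlgebra.single 1 (E8 i j)
    + (1 : ℤ) • (MonoidAlgebra.mapDomain (fun g => g⁻¹) (MonoidAlgebra.single 1 (E8 j i)))
    = ((C8 i j : ℤ) : MonoidAlgebra ℤ Γ)
  rw [MonoidAlgebra.mapDomain_single, inv_one, one_smul, ← MonoidAlgebra.single_add]
  exact (MonoidAlgebra.intCast_def _).symm

theorem unit8 : IsUnit (symmetrization 1 (induced Γ E8)) := by
  have h1 : C8 * I8 = 1 := by decide +kernel
  have h2 : I8 * C8 = 1 := by decide +kernel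
  rw [sym8]
  refine ⟨⟨C8.map (Int.castRingHom (MonoidAlgebra ℤ Γ)),
    I8.map (Int.castRingHom (MonoidAlgebra ℤ Γ)), ?_, ?_⟩, rfl⟩
  · rw [← Matrix.map_mul, h1]
    simp [Matrix.map_one]
  · rw [← Matrix.map_mul, h2]
    simp [Matrix.map_one]

theorem dom8 : WeightedDominantForm 1 (induced Γ E8) := by
  refine ⟨id, fun _ => 1, fun i => (p8 i : ℝ), fun _ => rfl, fun _ => inv_one.symm, ?_, ?_⟩
  · have h1 : ∀ i, 0 < p8 i := by decide
    intro i
    exact Int.cast_pos.2 (h1 i)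
  · intro i
    have h1 : ∀ i, ∑ j, ((C8 i j).natAbs : ℤ) * p8 j ≤ 2 * (2 * p8 i) := by decide +kernel
    have h2 : C8 i i = 2 := by revert i; decide +kernel
    have h3 : ∀ j, symmetrization 1 (induced Γ E8) i j = MonoidAlgebra.single 1 (C8 i j) := by
      intro j
      rw [sym8]
      exact (MonoidAlgebra.intCast_def _)
    have h4 : ∀ j, norm1 (symmetrization 1 (induced Γ E8) i j) = (C8 i j).natAbs := by
      intro j
      rw [h3]
      exact l1_single _ _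
    simp only [h4, id]
    rw [h3, h2]
    have h5 : ((MonoidAlgebra.single (1 : Γ) (2 : ℤ)).coeff 1 : ℝ) = 2 := by simp
    rw [h5]
    have h6 : (∑ j, (((C8 i j).natAbs : ℕ) : ℝ) * (p8 j : ℝ)) ≤ 2 * (2 * (p8 i : ℝ)) := by
      have h7 : ((∑ j, ((C8 i j).natAbs : ℤ) * p8 j : ℤ) : ℝ) ≤ ((2 * (2 * p8 i) : ℤ) : ℝ) :=
        Int.cast_le.2 (h1 i)
      rw [Int.cast_sum] at h7
      simpa using h7
    rw [abs_of_pos (by norm_num : (0 : ℝ) < 2)]
    linarith

end aux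

open Pool.Agent.R719.WF in
/-- (A) Let `Γ` be a group without elements of order two (for instance, a torsion-free group) and
`ε = ±1`. Each nonsingular `ε`-quadratic form over `ℤΓ` which is dominant at symmetric positions
with respect to some positive real weights is simply isometric to a form induced from `ℤ`. (B) For
every group `Γ`, the form `E₈` is nonsingular and weighted dominant. -/
theorem result (Γ : Type) [Group Γ] :
    ((∀ g : Γ, g * g = 1 → g = 1) → ∀ ε : ℤ, ε = 1 ∨ ε = -1 →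
      ∀ (κ : Type) [Fintype κ] [DecidableEq κ] (ψ : Matrix κ κ (MonoidAlgebra ℤ Γ)),
        IsUnit (symmetrization ε ψ) → WeightedDominantForm ε ψ →
        ∃ Q : Matrix κ κ ℤ, SimplyIsometric ε ψ (induced Γ Q)) ∧
    (IsUnit (symmetrization 1 (induced Γ E8)) ∧ WeightedDominantForm 1 (induced Γ E8)) := by
  refine ⟨fun htf ε hε κ _ _ ψ hu hd => ?_, unit8, dom8⟩
  obtain ⟨σ, γ, s, p, h⟩ := wdom_of_dominant hd
  obtain ⟨Q, hQ⟩ := wmain htf hε h hu
  exact ⟨Q, simple_of_iso hQ⟩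

end Pool.Agent.Results.MP_8a3537_gt.WeightedDominantForms
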